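import Pool.Agent.Y254.EL.Fin

/-!
# Removal of the loss in the Kakeya inequality for tubes

For every `n ≥ 3` and every `q₀ ≥ n / (n - 1)`: the inequality of the problem holds, without a loss,
for all `q > q₀` if and only if it holds at `q₀` with a loss `δ ^ (-ε)` for every `ε > 0`.
-/

set_option autoImplicit false

open MeasureTheory

namespace Pool.Agent.Results.MP_850839_an.LossRemoval

/-- The `δ`-tube with centre `a` and direction `e` (a unit vector): the closed cylinder of length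
`1` and radius `δ` around the segment with centre `a` and direction `e`. -/
def tube {n : ℕ} (δ : ℝ) (a e : EuclideanSpace ℝ (Fin n)) : Set (EuclideanSpace ℝ (Fin n)) :=
  {y | |inner ℝ (y - a) e| ≤ 1 / 2 ∧ ‖(y - a) - (inner ℝ (y - a) e) • e‖ ≤ δ}

/-- The inequality of the problem in dimension `n` and for the exponent `q`, for all families of
tubes of the width `δ` with `δ`-separated directions, with the number `K` in place of `C_q`. -/
def Holds (n : ℕ) (q δ K : ℝ) : Prop :=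
  ∀ (ι : Type) [Fintype ι] (a e : ι → EuclideanSpace ℝ (Fin n)), (∀ i, ‖e i‖ = 1) →
    (∀ i j, i ≠ j → δ ≤ ‖e i - e j‖) →
    eLpNorm (fun x => ∑ i, (tube δ (a i) (e i)).indicator (fun _ => (1 : ℝ)) x)
        (ENNReal.ofReal q) volume ≤
      ENNReal.ofReal (K * δ ^ (((n : ℝ) - 1) / q) *
        (Fintype.card ι : ℝ) ^ (1 - 1 / (q * ((n : ℝ) - 1))))

theorem holds_iff {d : ℕ} (hd : 2 ≤ d) {q δ K : ℝ} (hq : 0 < q) (hδ : 0 < δ) (hK : 0 ≤ K) :
    Holds (d + 1) q δ K ↔ ∀ (ι : Type) [Fintype ι] (a e : ι → EuclideanSpace ℝ (Fin (d + 1))),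
      (∀ i, ‖e i‖ = 1) → (∀ i j, i ≠ j → δ ≤ ‖e i - e j‖) →
      ∫⁻ x, Pool.Agent.Y254.mult (fun i => Pool.Agent.W46.KK.tube δ (a i) (e i)) x ^ q ≤
        ENNReal.ofReal (K ^ q * (δ ^ d * (Fintype.card ι : ℝ) ^ (q - 1 / (d : ℝ)))) := by
  have hdr : (2 : ℝ) ≤ d := by exact_mod_cast hd
  have hd0 : (0 : ℝ) < d := by linarith
  have e1 : (((d + 1 : ℕ) : ℝ) - 1) = d := by push_cast; ring
  unfold Holds
  refine forall_congr' fun ι => forall_congr' fun _ => forall_congr' fun a => forall_congr' fun e =>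
    imp_congr_right fun _ => imp_congr_right fun _ => ?_
  rw [eLpNorm_eq_lintegral_rpow_enorm_toReal (by
    rw [ne_eq, ENNReal.ofReal_eq_zero, not_le]; exact hq) ENNReal.ofReal_ne_top,
    ENNReal.toReal_ofReal hq.le, e1]
  have e3 : ∀ x, ‖∑ i, (tube δ (a i) (e i)).indicator (fun _ => (1 : ℝ)) x‖ₑ =
      Pool.Agent.Y254.mult (fun i => Pool.Agent.W46.KK.tube δ (a i) (e i)) x := by
    intro x
    unfold Pool.Agent.Y254.mult
    rw [Real.enorm_of_nonneg (Finset.sum_nonneg fun i _ =>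
      Set.indicator_nonneg (fun _ _ => zero_le_one) _),
      ENNReal.ofReal_sum_of_nonneg fun i _ => Set.indicator_nonneg (fun _ _ => zero_le_one) _]
    refine Finset.sum_congr rfl fun i _ => ?_
    by_cases hx : x ∈ tube δ (a i) (e i)
    · have hx' : x ∈ Pool.Agent.W46.KK.tube δ (a i) (e i) := hx
      rw [Set.indicator_of_mem hx, Set.indicator_of_mem hx', ENNReal.ofReal_one]
      rfl
    · have hx' : x ∉ Pool.Agent.W46.KK.tube δ (a i) (e i) := hx
      rw [Set.indicator_of_notMem hx, Set.indicator_of_notMem hx', ENNReal.ofReal_zero]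
  simp only [e3]
  rw [one_div, ENNReal.rpow_inv_le_iff hq, ENNReal.ofReal_rpow_of_nonneg (by positivity) hq.le]
  have e4 : (K * δ ^ ((d : ℝ) / q) * (Fintype.card ι : ℝ) ^ (1 - 1 / (q * (d : ℝ)))) ^ q =
      K ^ q * (δ ^ d * (Fintype.card ι : ℝ) ^ (q - 1 / (d : ℝ))) := by
    rw [Real.mul_rpow (by positivity) (by positivity), Real.mul_rpow (by positivity) (by positivity),
      ← Real.rpow_mul hδ.le, ← Real.rpow_mul (by positivity), ← Real.rpow_natCast δ d, mul_assoc]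
    congr 3
    · field_simp
    · field_simp
  rw [e4]

theorem result (n : ℕ) (hn : 3 ≤ n) (q₀ : ℝ) (hq₀ : (n : ℝ) / ((n : ℝ) - 1) ≤ q₀) :
    (∀ q : ℝ, q₀ < q → ∃ C : ℝ, 0 < C ∧ ∀ δ : ℝ, 0 < δ → δ < 1 → Holds n q δ C) ↔
    (∀ ε : ℝ, 0 < ε → ∃ C : ℝ, 0 < C ∧ ∀ δ : ℝ, 0 < δ → δ < 1 →
      Holds n q₀ δ (C * δ ^ (-ε))) := by
  obtain ⟨d, rfl⟩ : ∃ d, n = d + 1 := ⟨n - 1, by omega⟩
  have hd : 2 ≤ d := by omega
  have hdr : (2 : ℝ) ≤ (d : ℝ) := by exact_mod_cast hd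
  have hd0 : (0 : ℝ) < d := by linarith
  have hp0 : 0 < 1 / (d : ℝ) := by positivity
  have e1 : (((d + 1 : ℕ) : ℝ) - 1) = d := by push_cast; ring
  have hq0 : 1 + 1 / (d : ℝ) ≤ q₀ := by
    rw [e1] at hq₀
    refine le_trans (le_of_eq ?_) hq₀
    push_cast
    field_simp
  have hq00 : 0 < q₀ := by linarith
  constructor
  · intro h ε hε
    have hη : 0 < ε * q₀ / ((d : ℝ) + 1) := by positivity
    obtain ⟨C, hC, hH⟩ := h (q₀ + ε * q₀ / ((d : ℝ) + 1)) (by linarith)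
    have hF : Pool.Agent.Y254.EL.EuF d (q₀ + ε * q₀ / ((d : ℝ) + 1))
        (C ^ (q₀ + ε * q₀ / ((d : ℝ) + 1))) := by
      intro δ hδ hδ1 ι _ a e he hsep
      exact (holds_iff hd (by linarith) hδ hC.le).1 (hH δ hδ hδ1) ι a e he hsep
    obtain ⟨C', hC', hL⟩ := Pool.Agent.Y254.EL.euL_of_euF hq00 (by positivity : 0 < ε * q₀)
      (by positivity) hF
    refine ⟨(C' + 1) ^ (1 / q₀), by positivity, ?_⟩
    intro δ hδ hδ1
    rw [holds_iff hd hq00 hδ (by positivity)]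
    intro ι _ a e he hsep
    refine (hL δ hδ hδ1 ι a e he hsep).trans (ENNReal.ofReal_le_ofReal ?_)
    have e2 : ((C' + 1) ^ (1 / q₀) * δ ^ (-ε)) ^ q₀ = (C' + 1) * δ ^ (-(ε * q₀)) := by
      rw [Real.mul_rpow (by positivity) (by positivity), ← Real.rpow_mul (by positivity),
        ← Real.rpow_mul hδ.le, one_div, inv_mul_cancel₀ hq00.ne', Real.rpow_one]
      congr 2
      ring
    rw [e2]
    have h3 : 0 ≤ δ ^ (-(ε * q₀)) * (δ ^ d * (Fintype.card ι : ℝ) ^ (q₀ - 1 / (d : ℝ))) := by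
      positivity
    calc C' * (δ ^ (-(ε * q₀)) * (δ ^ d * (Fintype.card ι : ℝ) ^ (q₀ - 1 / (d : ℝ))))
        ≤ (C' + 1) * (δ ^ (-(ε * q₀)) * (δ ^ d * (Fintype.card ι : ℝ) ^ (q₀ - 1 / (d : ℝ)))) := by
          nlinarith
      _ = _ := by ring
  · intro h q hq
    obtain ⟨C, hC, hF⟩ := Pool.Agent.Y254.EL.euF_of_euL hd hq0 hq (by
      intro ε hε
      obtain ⟨C, hC, hH⟩ := h (ε / q₀) (by positivity)
      refine ⟨C ^ q₀, by positivity, ?_⟩
      intro δ hδ hδ1 ι _ a e he hsep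
      have h1 := (holds_iff hd hq00 hδ (by positivity)).1 (hH δ hδ hδ1) ι a e he hsep
      refine h1.trans (ENNReal.ofReal_le_ofReal (le_of_eq ?_))
      rw [Real.mul_rpow hC.le (by positivity), ← Real.rpow_mul hδ.le]
      have e2 : -(ε / q₀) * q₀ = -ε := by field_simp
      rw [e2]
      ring)
    have hqp : 0 < q := by linarith
    refine ⟨C ^ (1 / q), by positivity, ?_⟩
    intro δ hδ hδ1
    rw [holds_iff hd hqp hδ (by positivity)]
    intro ι _ a e he hsep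
    have e2 : (C ^ (1 / q)) ^ q = C := by
      rw [← Real.rpow_mul hC.le, one_div, inv_mul_cancel₀ hqp.ne', Real.rpow_one]
    rw [e2]
    exact hF δ hδ hδ1 ι a e he hsep

end Pool.Agent.Results.MP_850839_an.LossRemoval
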