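import Pool.Agent.Y254.Interp

/-!
# The Kakeya inequality for tubes, without loss, for sets of directions of dimension `α < n - 1`
-/

set_option autoImplicit false

open MeasureTheory

namespace Pool.Agent.Results.MP_850839_an.SparseDirections

/-- The `δ`-tube with centre `a` and direction `e` (a unit vector): the closed cylinder of length
`1` and radius `δ` around the segment with centre `a` and direction `e`. -/
def tube {n : ℕ} (δ : ℝ) (a e : EuclideanSpace ℝ (Fin n)) : Set (EuclideanSpace ℝ (Fin n)) :=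
  {y | |inner ℝ (y - a) e| ≤ 1 / 2 ∧ ‖(y - a) - (inner ℝ (y - a) e) • e‖ ≤ δ}

/-- Above the scale `δ` the directions `e i` have dimension at most `α`, with constant `A`: every
closed ball of radius `ρ ≥ δ` about one of them contains at most `A (ρ/δ)^α` of them. -/
def DirectionsLE {n : ℕ} {ι : Type} [Fintype ι] (δ α A : ℝ) (e : ι → EuclideanSpace ℝ (Fin n)) :
    Prop :=
  ∀ i, ∀ ρ : ℝ, δ ≤ ρ →
    (((Finset.univ : Finset ι).filter fun j => ‖e j - e i‖ ≤ ρ).card : ℝ) ≤ A * (ρ / δ) ^ α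

theorem enorm_sum {n : ℕ} {ι : Type} [Fintype ι] (δ : ℝ) (a e : ι → EuclideanSpace ℝ (Fin n))
    (x : EuclideanSpace ℝ (Fin n)) :
    ‖∑ i, (tube δ (a i) (e i)).indicator (fun _ => (1 : ℝ)) x‖ₑ =
      Pool.Agent.Y254.mult (fun i => Pool.Agent.Y254.tube δ (a i) (e i)) x := by
  unfold Pool.Agent.Y254.mult
  rw [Real.enorm_of_nonneg (Finset.sum_nonneg fun i _ =>
    Set.indicator_nonneg (fun _ _ => zero_le_one) _),
    ENNReal.ofReal_sum_of_nonneg fun i _ => Set.indicator_nonneg (fun _ _ => zero_le_one) _]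
  refine Finset.sum_congr rfl fun i _ => ?_
  by_cases hx : x ∈ tube δ (a i) (e i)
  · have hx' : x ∈ Pool.Agent.Y254.tube δ (a i) (e i) := hx
    rw [Set.indicator_of_mem hx, Set.indicator_of_mem hx', ENNReal.ofReal_one]
    rfl
  · have hx' : x ∉ Pool.Agent.Y254.tube δ (a i) (e i) := hx
    rw [Set.indicator_of_notMem hx, Set.indicator_of_notMem hx', ENNReal.ofReal_zero]

theorem norm_of_int {n : ℕ} (hn : 1 ≤ n) {q m C δ : ℝ} (hq0 : 0 < q) (hC : 0 < C) (hδ : 0 < δ)
    {ι : Type} [Fintype ι] (a e : ι → EuclideanSpace ℝ (Fin n))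
    (key : ∫⁻ x, Pool.Agent.Y254.mult (fun i => Pool.Agent.Y254.tube δ (a i) (e i)) x ^ q ≤
      ENNReal.ofReal (C * (δ ^ (n - 1) * (Fintype.card ι : ℝ) ^ (q - 1 / m)))) :
    eLpNorm (fun x => ∑ i, (tube δ (a i) (e i)).indicator (fun _ => (1 : ℝ)) x)
        (ENNReal.ofReal q) volume ≤
      ENNReal.ofReal (C ^ (1 / q) * δ ^ (((n : ℝ) - 1) / q) *
        (Fintype.card ι : ℝ) ^ (1 - 1 / (q * m))) := by
  rw [eLpNorm_eq_lintegral_rpow_enorm_toReal (by
    rw [ne_eq, ENNReal.ofReal_eq_zero, not_le]; exact hq0) ENNReal.ofReal_ne_top,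
    ENNReal.toReal_ofReal hq0.le]
  simp only [enorm_sum]
  refine (ENNReal.rpow_le_rpow key (by positivity)).trans (le_of_eq ?_)
  rw [ENNReal.ofReal_rpow_of_nonneg (by positivity) (by positivity)]
  congr 1
  have e4 : δ ^ (n - 1) = δ ^ ((n : ℝ) - 1) := by
    rw [← Real.rpow_natCast]
    push_cast [Nat.cast_sub hn]
    rfl
  rw [e4, Real.mul_rpow (by positivity) (by positivity),
    Real.mul_rpow (by positivity) (by positivity), ← Real.rpow_mul hδ.le,
    ← Real.rpow_mul (by positivity), ← mul_assoc]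
  congr 2
  · congr 1
    ring
  · field_simp

/-- For `1 < α < n - 1` and families of tubes whose directions form a set of dimension at most `α`:
the inequality of the Kakeya problem for `q > 1 + 2 α / ((α + 1) (n - 1))`, and its sharp form for
these families for `q > 1 + 2 / (α + 1)`. -/
theorem result (n : ℕ) (hn : 3 ≤ n) (α A q : ℝ) (hα : 1 < α) (hαn : α < (n : ℝ) - 1)
    (hq : 1 + 2 * α / ((α + 1) * ((n : ℝ) - 1)) < q) :
    ∃ C : ℝ, 0 < C ∧ ∀ δ : ℝ, 0 < δ → δ < 1 → ∀ (ι : Type) [Fintype ι]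
      (a e : ι → EuclideanSpace ℝ (Fin n)), (∀ i, ‖e i‖ = 1) →
      (∀ i j, i ≠ j → δ ≤ ‖e i - e j‖) → DirectionsLE δ α A e →
      eLpNorm (fun x => ∑ i, (tube δ (a i) (e i)).indicator (fun _ => (1 : ℝ)) x)
          (ENNReal.ofReal q) volume ≤
        ENNReal.ofReal (C * δ ^ (((n : ℝ) - 1) / q) *
          (Fintype.card ι : ℝ) ^ (1 - 1 / (q * ((n : ℝ) - 1)))) ∧
      (1 + 2 / (α + 1) < q →
        eLpNorm (fun x => ∑ i, (tube δ (a i) (e i)).indicator (fun _ => (1 : ℝ)) x)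
            (ENNReal.ofReal q) volume ≤
          ENNReal.ofReal (C * δ ^ (((n : ℝ) - 1) / q) *
            (Fintype.card ι : ℝ) ^ (1 - 1 / (q * α)))) := by
  have hA1 : (1 : ℝ) ≤ max A 1 := le_max_right _ _
  have hn1 : 1 ≤ n := by omega
  have hn0 : (0 : ℝ) < (n : ℝ) - 1 := by linarith
  have hα0 : 0 < α := by linarith
  have hq0 : 0 < q := by
    have : 0 < 2 * α / ((α + 1) * ((n : ℝ) - 1)) := by positivity
    linarith
  obtain ⟨C1, hC1, h1⟩ := Pool.Agent.Y254.sparse hn1 hα hαn hA1 hq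
  by_cases hq2 : 1 + 2 / (α + 1) < q
  · obtain ⟨C2, hC2, h2⟩ := Pool.Agent.Y254.wolffA hn1 hα hA1 hq2
    refine ⟨C1 ^ (1 / q) + C2 ^ (1 / q), by positivity, ?_⟩
    intro δ hδ hδ1 ι _ a e he hsep hdim
    have hdim' : Pool.Agent.Y254.DimLE δ α (max A 1) e :=
      Pool.Agent.Y254.DimLE.mono hδ hdim (le_max_left _ _)
    refine ⟨?_, fun _ => ?_⟩
    · refine (norm_of_int hn1 hq0 hC1 hδ a e (h1 δ hδ hδ1 a e he hsep hdim')).trans
        (ENNReal.ofReal_le_ofReal ?_)
      gcongr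
      have : 0 ≤ C2 ^ (1 / q) := by positivity
      linarith
    · refine (norm_of_int hn1 hq0 hC2 hδ a e (h2 δ hδ hδ1 a e he hsep hdim')).trans
        (ENNReal.ofReal_le_ofReal ?_)
      gcongr
      have : 0 ≤ C1 ^ (1 / q) := by positivity
      linarith
  · refine ⟨C1 ^ (1 / q), by positivity, ?_⟩
    intro δ hδ hδ1 ι _ a e he hsep hdim
    have hdim' : Pool.Agent.Y254.DimLE δ α (max A 1) e :=
      Pool.Agent.Y254.DimLE.mono hδ hdim (le_max_left _ _)
    exact ⟨norm_of_int hn1 hq0 hC1 hδ a e (h1 δ hδ hδ1 a e he hsep hdim'),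
      fun h => absurd h hq2⟩

end Pool.Agent.Results.MP_850839_an.SparseDirections
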